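import Pool.Agent.N208.BT.Stm2

set_option autoImplicit false

/-!
# BT/K: a rational endomorphism which commutes with `z` and kills `V₀` is zero (for helper208)
-/

open Module Polynomial

noncomputable section

namespace Pool.Agent.N9.BTK

open Pool.Agent.Y102 Pool.Agent.N208.AD Pool.Agent.N208.BT

variable {g : ℕ} (A : AbVar g)

theorem ext_one : A.ext (1 : Module.End ℚ A.H1) = 1 := by
  refine A.ext_per fun u => ?_
  rw [A.ext_apply, Module.End.one_apply, Module.End.one_apply]

theorem ext_pow (z : Module.End ℚ A.H1) (k : ℕ) : A.ext (z ^ k) = A.ext z ^ k := by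
  induction k with
  | zero => rw [pow_zero, pow_zero, ext_one]
  | succ k ih => rw [pow_succ, pow_succ, Pool.Agent.N208.AD.ext_mul, ih]

/-- the extension of a polynomial in `z` -/
theorem ext_aeval (z : Module.End ℚ A.H1) (q : ℚ[X]) :
    A.ext (aeval z q) = aeval (A.ext z) (q.map (algebraMap ℚ ℝ)) := by
  induction q using Polynomial.induction_on' with
  | add p q hp hq =>
    rw [map_add, Pool.Agent.N208.AD.ext_add, hp, hq, Polynomial.map_add, map_add]
  | monomial n a =>
    rw [Polynomial.map_monomial, aeval_monomial, aeval_monomial, ← Algebra.smul_def,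
      Pool.Agent.N208.AD.ext_smul, ext_pow, ← Algebra.smul_def]
    rfl

/-- the real polynomial in `z` at a period -/
theorem aeval_per (z : Module.End ℚ A.H1) (h : ℝ[X]) (w : A.H1) :
    aeval (A.ext z) h (A.per w) =
      ∑ k ∈ Finset.range (h.natDegree + 1), h.coeff k • A.per ((z ^ k) w) := by
  rw [aeval_eq_sum_range, LinearMap.sum_apply]
  refine Finset.sum_congr rfl fun k _ => ?_
  rw [LinearMap.smul_apply, ← ext_pow, A.ext_apply]

theorem main : S_K := by
  intro g A z al hz y hyz hy
  obtain ⟨f, hf⟩ : ∃ f, f = minpoly ℚ z := ⟨_, rfl⟩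
  have hint : IsIntegral ℚ z := Algebra.IsIntegral.isIntegral z
  have hf0 : f ≠ 0 := by rw [hf]; exact minpoly.ne_zero hint
  have hfz : aeval z f = 0 := by rw [hf]; exact minpoly.aeval ℚ z
  obtain ⟨F, hF⟩ : ∃ F : ℝ[X], F = f.map (algebraMap ℚ ℝ) := ⟨_, rfl⟩
  have hFz : aeval (A.ext z) F = 0 := by
    rw [hF, ← ext_aeval, hfz, Pool.Agent.N208.AD.ext_zero]
  have hF0 : F ≠ 0 := by
    rw [hF]
    exact (Polynomial.map_ne_zero_iff (algebraMap ℚ ℝ).injective).2 hf0
  have hFd : F.natDegree = f.natDegree := by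
    rw [hF]
    exact Polynomial.natDegree_map_eq_of_injective (algebraMap ℚ ℝ).injective f
  -- the quadratic factor
  obtain ⟨P, hP⟩ : ∃ P : ℝ[X], P = X ^ 2 + C (al ^ 2) := ⟨_, rfl⟩
  have hPm : P.Monic := by
    rw [hP]
    exact monic_X_pow_add_C _ two_ne_zero
  have hPd : P.degree = 2 := by
    rw [hP]
    exact degree_X_pow_add_C two_pos _
  have hPn : P.natDegree = 2 := natDegree_eq_of_degree_eq_some hPd
  have hPz : aeval (A.ext z) P =
      A.ext z * A.ext z + (al ^ 2) • (1 : Module.End ℝ (Fin g → ℂ)) := by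
    rw [hP, map_add, map_pow, aeval_X, aeval_C, pow_two, Algebra.algebraMap_eq_smul_one]
  obtain ⟨x, hx0, hx⟩ := hz.ex
  have hx' : A.ext z x = ((al : ℂ) * Complex.I) • x := hx
  have hzI : ∀ c : ℂ, A.ext z (c • x) = c • A.ext z x := by
    intro c
    exact AbVar.CR_complex (A := A) A.endAlg (X := A.ext z)
      (Submodule.subset_span ⟨z, hz.mem, rfl⟩) c x
  have hPx : aeval (A.ext z) P x = 0 := by
    rw [hPz, LinearMap.add_apply, Module.End.mul_apply, LinearMap.smul_apply,
      Module.End.one_apply, hx', hzI, hx', smul_smul]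
    have h1 : (al : ℂ) * Complex.I * ((al : ℂ) * Complex.I) = ((-(al ^ 2) : ℝ) : ℂ) := by
      push_cast
      have := Complex.I_mul_I
      linear_combination (al : ℂ) ^ 2 * this
    rw [h1]
    have h2 : ((-(al ^ 2) : ℝ) : ℂ) • x = (-(al ^ 2) : ℝ) • x := by
      funext i
      simp [Complex.real_smul]
    rw [h2, neg_smul, neg_add_cancel]
  obtain ⟨h, hh⟩ : ∃ h, F = P * h := by
    obtain ⟨r, hr⟩ : ∃ r, r = F %ₘ P := ⟨_, rfl⟩
    have h1 : r + P * (F /ₘ P) = F := by rw [hr]; exact modByMonic_add_div F P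
    have h2 : r.degree < 2 := by rw [hr, ← hPd]; exact degree_modByMonic_lt F hPm
    have h3 : r.degree ≤ 1 := by
      by_cases hr0 : r = 0
      · rw [hr0, degree_zero]
        exact bot_le
      · rw [degree_eq_natDegree hr0] at h2 ⊢
        have h30 : r.natDegree < 2 := by exact_mod_cast h2
        have h31 : r.natDegree ≤ 1 := by omega
        exact_mod_cast h31
    have h4 : r = C (r.coeff 1) * X + C (r.coeff 0) := eq_X_add_C_of_degree_le_one h3
    have h5 : aeval (A.ext z) r x = 0 := by
      have h6 : aeval (A.ext z) F x = 0 := by rw [hFz, LinearMap.zero_apply]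
      rw [← h1, map_add, mul_comm P, map_mul, LinearMap.add_apply, Module.End.mul_apply, hPx,
        map_zero, add_zero] at h6
      exact h6
    rw [h4, map_add, map_mul, aeval_C, aeval_C, aeval_X, Algebra.algebraMap_eq_smul_one,
      Algebra.algebraMap_eq_smul_one, smul_mul_assoc, one_mul, LinearMap.add_apply,
      LinearMap.smul_apply, LinearMap.smul_apply, Module.End.one_apply, hx'] at h5
    obtain ⟨i, hi⟩ : ∃ i, x i ≠ 0 := by
      by_contra hcon
      push Not at hcon
      exact hx0 (funext hcon)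
    have h7 := congrFun h5 i
    have h8 : ((r.coeff 1 : ℂ) * ((al : ℂ) * Complex.I) + (r.coeff 0 : ℂ)) * x i = 0 := by
      have h9 : (r.coeff 1 • (((al : ℂ) * Complex.I) • x) + r.coeff 0 • x) i =
          ((r.coeff 1 : ℂ) * ((al : ℂ) * Complex.I) + (r.coeff 0 : ℂ)) * x i := by
        simp only [Pi.add_apply, Pi.smul_apply, Complex.real_smul, smul_eq_mul]
        ring
      rw [← h9]
      exact h7
    have h10 := (mul_eq_zero.1 h8).resolve_right hi
    have h11 := congrArg Complex.re h10
    have h12 := congrArg Complex.im h10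
    simp at h11 h12
    have h13 : r = 0 := by
      rw [h4]
      rcases h12 with h12 | h12
      · rw [h12, h11]
        simp
      · exact absurd h12 hz.ne
    refine ⟨F /ₘ P, ?_⟩
    rw [h13, zero_add] at h1
    exact h1.symm
  have hh0 : h ≠ 0 := by
    intro h1
    rw [h1, mul_zero] at hh
    exact hF0 hh
  have hdeg : h.natDegree + 2 = f.natDegree := by
    rw [← hFd, hh, natDegree_mul hPm.ne_zero hh0, hPn, add_comm]
  -- the operator `h(Z)` has image in `V₀`
  have hker : ∀ x, A.ext y (aeval (A.ext z) h x) = 0 := by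
    intro x
    apply hy
    unfold V0
    rw [LinearMap.mem_ker, ← hPz, ← Module.End.mul_apply, ← map_mul, ← hh, hFz,
      LinearMap.zero_apply]
  obtain ⟨lam, hlam⟩ : ∃ lam : ℝ →ₗ[ℚ] ℚ, lam h.leadingCoeff ≠ 0 := by
    by_contra hcon
    push Not at hcon
    exact hh0 (leadingCoeff_eq_zero.1 (exists_sep hcon))
  obtain ⟨q, hq⟩ : ∃ q : ℚ[X], q = ∑ k ∈ Finset.range (h.natDegree + 1),
    monomial k (lam (h.coeff k)) := ⟨_, rfl⟩
  have hqz : ∀ w, aeval z q w =
      ∑ k ∈ Finset.range (h.natDegree + 1), lam (h.coeff k) • (z ^ k) w := by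
    intro w
    rw [hq, map_sum, LinearMap.sum_apply]
    refine Finset.sum_congr rfl fun k _ => ?_
    rw [aeval_monomial, ← Algebra.smul_def, LinearMap.smul_apply]
  have hyq : ∀ w, y (aeval z q w) = 0 := by
    intro w
    have h1 := congrArg (A.cmp lam) (hker (A.per w))
    rw [aeval_per, map_zero, A.cmp_ext, map_sum] at h1
    rw [hqz]
    simp only [A.cmp_smul_per] at h1
    exact h1
  have hq0 : q.coeff h.natDegree ≠ 0 := by
    rw [hq, finsetSum_coeff, Finset.sum_eq_single h.natDegree]
    · rw [coeff_monomial, if_pos rfl]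
      exact hlam
    · intro k _ hk
      rw [coeff_monomial, if_neg hk]
    · intro h1
      exact absurd (Finset.self_mem_range_succ _) h1
  have hqne : q ≠ 0 := by
    intro h1
    rw [h1] at hq0
    exact hq0 (coeff_zero _)
  have hqd : q.degree ≤ h.natDegree := by
    rw [hq]
    refine (degree_sum_le _ _).trans ?_
    refine Finset.sup_le fun k hk => ?_
    refine (degree_monomial_le _ _).trans ?_
    have := Finset.mem_range.1 hk
    exact_mod_cast (show k ≤ h.natDegree by omega)
  have hqz0 : aeval z q ≠ 0 := by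
    intro h1
    have h2 := minpoly.degree_le_of_ne_zero ℚ z hqne h1
    rw [← hf, degree_eq_natDegree hf0] at h2
    have h3 := h2.trans hqd
    have h4 : f.natDegree ≤ h.natDegree := by exact_mod_cast h3
    omega
  have hinj := hz.field q hqz0
  have hsurj : Function.Surjective (aeval z q) := LinearMap.injective_iff_surjective.1 hinj
  refine LinearMap.ext fun v => ?_
  obtain ⟨w, rfl⟩ := hsurj v
  rw [hyq, LinearMap.zero_apply]

end Pool.Agent.N9.BTK
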