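import Pool.Agent.Y522.Tools
import Pool.Agent.Y641.SH.Level
import Pool.Agent.H664.Sard

/-!
# Project SH, task 1: Morse-Sard for smooth real functions
-/

set_option autoImplicit false

open Set Filter Topology Metric Function MeasureTheory
open scoped Manifold ContDiff

noncomputable section

namespace Pool.Agent.N9.SH

open Pool.Agent.Y522 Pool.Agent.H664.Sard

/-- a null set can be recognized locally -/
theorem null_of_local {X : Type} [TopologicalSpace X] [SecondCountableTopology X] {f : X → ℝ}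
    {A : Set X} (h : ∀ x ∈ A, ∃ V ∈ 𝓝 x, volume (f '' (A ∩ V)) = 0) : volume (f '' A) = 0 := by
  choose! V hV hr using h
  obtain ⟨t, hts, htc, hcov⟩ := TopologicalSpace.countable_cover_nhdsWithin
    (s := A) (f := V) (fun x hx => mem_nhdsWithin_of_mem_nhds (hV x hx))
  have h1 : f '' A ⊆ ⋃ x ∈ t, f '' (A ∩ V x) := by
    rintro _ ⟨y, hy, rfl⟩
    obtain ⟨x, hx, hyx⟩ := mem_iUnion₂.1 (hcov hy)
    exact mem_iUnion₂.2 ⟨x, hx, y, ⟨hy, hyx⟩, rfl⟩
  refine measure_mono_null h1 ?_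
  rw [measure_biUnion_null_iff htc]
  exact fun x hx => hr x (hts hx)

/-- a germ of a smooth function extends to a global smooth function -/
theorem exists_smooth_extension {n : ℕ} {f : E n → ℝ} {x : E n}
    (h : ∀ᶠ y in 𝓝 x, ContDiffAt ℝ ∞ f y) :
    ∃ g : E n → ℝ, ContDiff ℝ ∞ g ∧ g =ᶠ[𝓝 x] f := by
  obtain ⟨r, hr, h2⟩ := Metric.eventually_nhds_iff_ball.1 h
  let b : ContDiffBump x := ⟨r / 4, r / 2, by positivity, by linarith⟩
  refine ⟨fun y => b y • f y, ?_, ?_⟩
  · rw [contDiff_iff_contDiffAt]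
    intro y
    by_cases hy : y ∈ Metric.ball x r
    · exact (b.contDiff (n := (⊤ : ℕ∞))).contDiffAt.smul (h2 y hy)
    · have h3 : ∀ᶠ z in 𝓝 y, z ∉ Metric.closedBall x (r / 2) := by
        apply (Metric.isClosed_closedBall.isOpen_compl).mem_nhds
        intro hz
        apply hy
        rw [Metric.mem_ball]
        rw [Metric.mem_closedBall] at hz
        linarith
      have h4 : (fun y => b y • f y) =ᶠ[𝓝 y] fun _ => 0 := by
        filter_upwards [h3] with z hz
        have h5 : b z = 0 := b.zero_of_le_dist (by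
          rw [Metric.mem_closedBall, not_le] at hz
          exact hz.le)
        rw [h5, zero_smul]
      exact contDiffAt_const.congr_of_eventuallyEq h4
  · filter_upwards [b.eventuallyEq_one] with y hy
    rw [hy]
    simp

theorem null_of_dimH {s : Set ℝ} (h : dimH s < 1) : volume s = 0 := by
  have h1 := hausdorffMeasure_of_dimH_lt (s := s) (d := 1) (by simpa using h)
  have h2 : (μH[((1 : NNReal) : ℝ)] : Measure ℝ) = volume := by
    rw [NNReal.coe_one, hausdorffMeasure_real]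
  rwa [h2] at h1

/-- the part of the critical set where all derivatives of order `≤ n` vanish -/
theorem flat_part {n : ℕ} {U : Set (E n)} (hU : IsOpen U) {f : E n → ℝ}
    (hf : ∀ x ∈ U, ContDiffAt ℝ ∞ f x) :
    volume (f '' {x | x ∈ U ∧ ∀ i, 1 ≤ i → i ≤ n → iteratedFDeriv ℝ i f x = 0}) = 0 := by
  apply null_of_local
  rintro x ⟨hxU, hx⟩
  obtain ⟨g, hg, hgf⟩ := exists_smooth_extension (f := f) (x := x)
    ((hU.eventually_mem hxU).mono hf)
  obtain ⟨r, hr, h2⟩ := Metric.eventually_nhds_iff_ball.1 hgf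
  refine ⟨closedBall x (r / 2), closedBall_mem_nhds x (by positivity), ?_⟩
  apply null_of_dimH
  set Q : Set (E n) := closedBall x (r / 2) with hQ
  set A : Set (E n) := {x | x ∈ U ∧ ∀ i, 1 ≤ i → i ≤ n → iteratedFDeriv ℝ i f x = 0} ∩ Q with hA
  have hgd : Differentiable ℝ g := hg.differentiable (by simp)
  have hg1 : ContDiff ℝ n (fderiv ℝ g) := by
    have : ContDiff ℝ ∞ (fderiv ℝ g) := hg.fderiv_right (by simp)
    exact this.of_le (by exact_mod_cast le_top)
  have hball : ∀ y ∈ Q, y ∈ ball x r := by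
    intro y hy
    rw [hQ, mem_closedBall] at hy
    rw [mem_ball]; linarith
  have hgfe : ∀ y ∈ Q, g =ᶠ[𝓝 y] f := by
    intro y hy
    filter_upwards [isOpen_ball.mem_nhds (hball y hy)] with z hz
    exact h2 z hz
  obtain ⟨C, hC, h3⟩ := flat_taylor (isCompact_closedBall x (r / 2))
      (convex_closedBall x (r / 2)) n (fderiv ℝ g) hg1
  have h4 : ∀ y ∈ A, ∀ z ∈ A, dist (f y) (f z) ≤ C * dist y z ^ (n + 1) := by
    rintro y ⟨⟨-, hy⟩, hyQ⟩ z ⟨-, hzQ⟩
    have h5 : ∀ i < n, iteratedFDeriv ℝ i (fderiv ℝ g) y = 0 := by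
      intro i hi
      rw [← norm_eq_zero, norm_iteratedFDeriv_fderiv,
        ((hgfe y hyQ).iteratedFDeriv ℝ (i + 1)).self_of_nhds, hy (i + 1) (by omega) (by omega),
        norm_zero]
    have h7 := mvt_pow hgd (convex_closedBall x (r / 2)) hyQ hC (fun q hq => h3 y hyQ h5 q hq) z hzQ
    rw [dist_comm (f y), dist_comm y, dist_eq_norm, dist_eq_norm, ← h2 z (hball z hzQ),
      ← h2 y (hball y hyQ)]
    exact h7
  refine lt_of_le_of_lt (dimH_image_of_pow hC (Nat.succ_pos n) h4) ?_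
  have h5 : dimH A ≤ n := by
    calc dimH A ≤ dimH (univ : Set (E n)) := dimH_mono (subset_univ _)
      _ = n := by rw [Real.dimH_univ_eq_finrank]; simp
  calc dimH A / ((n + 1 : ℕ) : ENNReal) ≤ (n : ENNReal) / ((n + 1 : ℕ) : ENNReal) := by gcongr
    _ < 1 := by
      rw [ENNReal.div_lt_iff (Or.inl (by simp)) (Or.inl (by simp)), one_mul]
      exact_mod_cast Nat.lt_succ_self n

/-- the intermediate strata -/
theorem mid_part {m : ℕ} (ih : ∀ U : Set (E m), IsOpen U → ∀ f : E m → ℝ,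
    (∀ x ∈ U, ContDiffAt ℝ ∞ f x) → volume (f '' {x | x ∈ U ∧ fderiv ℝ f x = 0}) = 0)
    {U : Set (E (m + 1))} (hU : IsOpen U) {f : E (m + 1) → ℝ}
    (hf : ∀ x ∈ U, ContDiffAt ℝ ∞ f x) (k : ℕ) (hk : 1 ≤ k) :
    volume (f '' {x | x ∈ U ∧ (∀ i, 1 ≤ i → i ≤ k → iteratedFDeriv ℝ i f x = 0) ∧
      iteratedFDeriv ℝ (k + 1) f x ≠ 0}) = 0 := by
  apply null_of_local
  rintro x ⟨hxU, hx, hne⟩
  obtain ⟨v, hv⟩ : ∃ v, iteratedFDeriv ℝ (k + 1) f x v ≠ 0 := by
    by_contra hcon
    push Not at hcon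
    exact hne (ContinuousMultilinearMap.ext hcon)
  rw [iteratedFDeriv_succ_apply_left] at hv
  set T : (ContinuousMultilinearMap ℝ (fun _ : Fin k => E (m + 1)) ℝ) →L[ℝ] ℝ :=
      ContinuousMultilinearMap.apply ℝ (fun _ : Fin k => E (m + 1)) ℝ (Fin.tail v) with hT
  set w : E (m + 1) → ℝ := fun y => T (iteratedFDeriv ℝ k f y) with hw
  have hcd : ∀ y ∈ U, ContDiffAt ℝ ∞ (iteratedFDeriv ℝ k f) y := by
    intro y hy
    exact (hf y hy).iteratedFDeriv_right (by
      rw [add_comm]; exact_mod_cast (le_refl (⊤ : ℕ∞)))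
  have hws : ∀ y ∈ U, ContDiffAt ℝ ∞ w y := fun y hy =>
    T.contDiff.contDiffAt.comp y (hcd y hy)
  have hwx : w x = 0 := by
    rw [hw]; simp only
    rw [hx k hk le_rfl, map_zero]
  have hwd : mfderiv (𝓡 (m + 1)) 𝓘(ℝ, ℝ) w x ≠ 0 := by
    rw [mfderiv_eq_fderiv]
    intro h0
    have h1 : HasFDerivAt w (T.comp (fderiv ℝ (iteratedFDeriv ℝ k f) x)) x :=
      T.hasFDerivAt.comp x (((hcd x hxU).differentiableAt (by simp)).hasFDerivAt)
    rw [h1.fderiv] at h0
    apply hv
    have h2 : (T.comp (fderiv ℝ (iteratedFDeriv ℝ k f) x)) (v 0) = 0 := by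
      rw [show T.comp (fderiv ℝ (iteratedFDeriv ℝ k f) x) = 0 from h0]
      rfl
    exact h2
  obtain ⟨e, he, hex, hew⟩ := Pool.Agent.Y641.SH.stAdapt m (E (m + 1)) w x
    ((hU.eventually_mem hxU).mono fun y hy => contMDiffAt_iff_contDiffAt.2 (hws y hy)) hwd
  obtain ⟨p, hp, hpx, hpe, -⟩ := he.exists_inverse
  rw [hex] at hp hpx
  -- the open set in `E m`
  have h1 : ∀ᶠ z in 𝓝 (0 : E (m + 1)), LD (m + 1) p z ∧ p z ∈ U := by
    refine hp.eventually.and ?_
    have h2 : Tendsto p (𝓝 0) (𝓝 (p 0)) := hp.continuousAt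
    rw [hpx] at h2
    exact h2.eventually (hU.eventually_mem hxU)
  obtain ⟨W, hW, hWo, h0W⟩ := _root_.eventually_nhds_iff.1 h1
  set V : Set (E m) := (inc : E m →L[ℝ] E (m + 1)) ⁻¹' W with hV
  have hVo : IsOpen V := hWo.preimage (inc : E m →L[ℝ] E (m + 1)).continuous
  set g : E m → ℝ := fun q => f (p (inc q)) with hg
  have hgs : ∀ q ∈ V, ContDiffAt ℝ ∞ g q := by
    intro q hq
    obtain ⟨h2, h3⟩ := hW _ hq
    have h4 : ContDiffAt ℝ ∞ (fun q : E m => p (inc q)) q :=
      h2.contDiffAt.comp q (inc : E m →L[ℝ] E (m + 1)).contDiff.contDiffAt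
    exact (hf _ h3).comp q h4
  have hnull := ih V hVo g hgs
  refine ⟨{y | w y = 0 → (∃ q ∈ V, p (inc q) = y)}, ?_, ?_⟩
  · have h2 : Tendsto e (𝓝 x) (𝓝 0) := by
      have := he.continuousAt
      rwa [ContinuousAt, hex] at this
    filter_upwards [hew, hpe, h2.eventually (hWo.eventually_mem h0W)] with y h3 h4 h5 h6
    rw [hwx, h6, sub_zero] at h3
    have h7 : (inc (tl (e y)) : E (m + 1)) = e y := by
      rw [inc_apply, ← h3]
      exact cn_tl (e y)
    refine ⟨tl (e y), ?_, ?_⟩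
    · rw [hV, mem_preimage, h7]
      exact h5
    · rw [h7, h4]
  · refine measure_mono_null ?_ hnull
    rintro _ ⟨y, ⟨⟨hyU, hy, -⟩, hyV⟩, rfl⟩
    obtain ⟨q, hq, hqy⟩ := hyV (by
      rw [hw]; simp only
      rw [hy k hk le_rfl, map_zero])
    refine ⟨q, ⟨hq, ?_⟩, ?_⟩
    · have h2 : fderiv ℝ f y = 0 := by
        rw [← norm_eq_zero, ← norm_iteratedFDeriv_one, hy 1 le_rfl hk, norm_zero]
      obtain ⟨h3, h4⟩ := hW _ hq
      have h5 : HasFDerivAt f (0 : E (m + 1) →L[ℝ] ℝ) (p (inc q)) := by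
        rw [hqy, ← h2]
        exact ((hf y hyU).differentiableAt (by simp)).hasFDerivAt
      have h6 : DifferentiableAt ℝ (fun q : E m => p (inc q)) q :=
        (h3.contDiffAt.comp q (inc : E m →L[ℝ] E (m + 1)).contDiff.contDiffAt).differentiableAt
          (by simp)
      have h7 := h5.comp q h6.hasFDerivAt
      have h8 : HasFDerivAt g ((0 : E (m + 1) →L[ℝ] ℝ).comp
        (fderiv ℝ (fun q : E m => p (inc q)) q)) q := h7
      rw [h8.fderiv]
      simp
    · rw [hg]; simp only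
      rw [hqy]

/-- **Morse-Sard theorem** for smooth real functions on open subsets of `ℝ^n` -/
theorem sard : StSard := by
  intro n
  induction n with
  | zero =>
    intro U _ f _
    apply Set.Countable.measure_zero
    apply Set.Countable.image
    exact (Set.subsingleton_of_subsingleton).countable
  | succ m ih =>
    intro U hU f hf
    have key : ∀ j : ℕ, j ≤ m → volume (f '' {x | x ∈ U ∧
        ∀ i, 1 ≤ i → i ≤ m + 1 - j → iteratedFDeriv ℝ i f x = 0}) = 0 := by
      intro j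
      induction j with
      | zero =>
        intro _
        exact flat_part hU hf
      | succ j ihj =>
        intro hj
        have h1 := ihj (by omega)
        have h2 := mid_part ih hU hf (m + 1 - (j + 1)) (by omega)
        refine measure_mono_null ?_ (measure_union_null h1 h2)
        rw [← image_union]
        apply image_mono
        rintro x ⟨hxU, hx⟩
        have e : m + 1 - (j + 1) + 1 = m + 1 - j := by omega
        by_cases h3 : iteratedFDeriv ℝ (m + 1 - (j + 1) + 1) f x = 0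
        · left
          refine ⟨hxU, fun i hi1 hi2 => ?_⟩
          rcases Nat.lt_or_ge i (m + 1 - j) with h | h
          · exact hx i hi1 (by omega)
          · have : i = m + 1 - (j + 1) + 1 := by omega
            rw [this]; exact h3
        · right
          exact ⟨hxU, hx, h3⟩
    refine measure_mono_null (image_mono ?_) (key m le_rfl)
    rintro x ⟨hxU, hx⟩
    refine ⟨hxU, fun i hi1 hi2 => ?_⟩
    have : i = 1 := by omega
    subst this
    rw [← norm_eq_zero, norm_iteratedFDeriv_one, hx, norm_zero]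

/-- **Morse-Sard theorem** for smooth real functions on manifolds -/
theorem sardM : StSardM := by
  intro n X _ _ _ _ f hf
  apply null_of_local
  intro x hx
  set φ := chartAt (E n) x with hφ
  refine ⟨φ.source, φ.open_source.mem_nhds (mem_chart_source _ x), ?_⟩
  have hsym : ∀ z ∈ φ.target, ContMDiffAt (𝓡 n) (𝓡 n) ∞ φ.symm z := by
    intro z hz
    exact (contMDiffOn_chart_symm z hz).contMDiffAt (φ.open_target.mem_nhds hz)
  have hg : ∀ z ∈ φ.target, ContDiffAt ℝ ∞ (fun z => f (φ.symm z)) z := by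
    intro z hz
    exact contMDiffAt_iff_contDiffAt.1 (hf.contMDiffAt.comp z (hsym z hz))
  refine measure_mono_null ?_ (sard n φ.target φ.open_target _ hg)
  rintro _ ⟨y, ⟨hy, hys⟩, rfl⟩
  refine ⟨φ y, ⟨φ.map_source hys, ?_⟩, ?_⟩
  · rw [← mfderiv_eq_fderiv]
    have h1 : φ.symm (φ y) = y := φ.left_inv hys
    have h2 : mfderiv (𝓡 n) 𝓘(ℝ, ℝ) (f ∘ φ.symm) (φ y) =
        (mfderiv (𝓡 n) 𝓘(ℝ, ℝ) f (φ.symm (φ y))).comp (mfderiv (𝓡 n) (𝓡 n) φ.symm (φ y)) :=
      mfderiv_comp _ (hf.mdifferentiableAt (by simp))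
        ((hsym _ (φ.map_source hys)).mdifferentiableAt (by simp))
    have h3 : mfderiv (𝓡 n) 𝓘(ℝ, ℝ) f (φ.symm (φ y)) = 0 := by
      rw [h1]; exact hy
    change mfderiv (𝓡 n) 𝓘(ℝ, ℝ) (f ∘ φ.symm) (φ y) = 0
    rw [h2, h3]
    rfl
  · simp only
    rw [φ.left_inv hys]

end Pool.Agent.N9.SH
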