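import Mathlib

/-!
# Project ZL, task S1: Koszul identity for dimensions of isotypic parts
-/

set_option autoImplicit false

namespace Pool.Agent.N9.ZL

open Finset

open Equiv in
/-- elements which are antisymmetric in `A` and symmetric outside `A` -/
def SkInv {K Q : Type*} [Field K] [AddCommGroup Q] [Module K Q] {k : ℕ}
    (ρ : Perm (Fin k) →* Module.End K Q) (A : Finset (Fin k)) : Submodule K Q where
  carrier := {x | (∀ σ : Perm (Fin k), (∀ a ∈ A, σ a = a) → ρ σ x = x) ∧
    (∀ σ : Perm (Fin k), (∀ a ∉ A, σ a = a) → ρ σ x = ((Perm.sign σ : ℤ) : K) • x)}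
  add_mem' := by
    rintro x y ⟨h1, h2⟩ ⟨h3, h4⟩
    exact ⟨fun σ hσ => by rw [map_add, h1 σ hσ, h3 σ hσ],
      fun σ hσ => by rw [map_add, h2 σ hσ, h4 σ hσ, smul_add]⟩
  zero_mem' := ⟨fun σ _ => map_zero _, fun σ _ => by rw [map_zero, smul_zero]⟩
  smul_mem' := by
    rintro c x ⟨h1, h2⟩
    exact ⟨fun σ hσ => by rw [map_smul, h1 σ hσ],
      fun σ hσ => by rw [map_smul, h2 σ hσ, smul_comm]⟩

section

variable {K Q : Type*} [Field K] [AddCommGroup Q] [Module K Q] {k : ℕ}
  (ρ : Equiv.Perm (Fin k) →* Module.End K Q)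

open Equiv

theorem mem_SkInv {A : Finset (Fin k)} {x : Q} : x ∈ SkInv ρ A ↔
    (∀ σ : Perm (Fin k), (∀ a ∈ A, σ a = a) → ρ σ x = x) ∧
    (∀ σ : Perm (Fin k), (∀ a ∉ A, σ a = a) → ρ σ x = ((Perm.sign σ : ℤ) : K) • x) := Iff.rfl

/-- the parts of the Koszul complex -/
abbrev V (i : ℕ) : Submodule K Q := SkInv ρ (univ.filter fun j : Fin k => j.val < i)

theorem mem_V {i : ℕ} {x : Q} : x ∈ V ρ i ↔
    (∀ σ : Perm (Fin k), (∀ a : Fin k, a.val < i → σ a = a) → ρ σ x = x) ∧
    (∀ σ : Perm (Fin k), (∀ a : Fin k, i ≤ a.val → σ a = a) →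
      ρ σ x = ((Perm.sign σ : ℤ) : K) • x) := by
  rw [mem_SkInv]
  simp only [mem_filter, mem_univ, true_and, not_lt]

/-- the Koszul differential -/
def D (a : Fin k) : Module.End K Q := ∑ l ∈ univ.filter (fun l => a ≤ l), ρ (swap a l)

/-- the homotopy -/
def H (a : Fin k) : Module.End K Q :=
  ∑ l ∈ univ.filter (fun l => l ≤ a), ((Perm.sign (swap l a) : ℤ) : K) • ρ (swap l a)

theorem D_apply (a : Fin k) (x : Q) :
    D ρ a x = ∑ l ∈ univ.filter (fun l => a ≤ l), ρ (swap a l) x := by
  unfold D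
  rw [LinearMap.sum_apply]

theorem H_apply (a : Fin k) (x : Q) : H ρ a x =
    ∑ l ∈ univ.filter (fun l => l ≤ a), ((Perm.sign (swap l a) : ℤ) : K) • ρ (swap l a) x := by
  unfold H
  rw [LinearMap.sum_apply]
  rfl

theorem mul_app (σ τ : Perm (Fin k)) (x : Q) : ρ (σ * τ) x = ρ σ (ρ τ x) := by
  rw [map_mul]; rfl

theorem swap_app (a b : Fin k) (x : Q) : ρ (swap a b) (ρ (swap a b) x) = x := by
  rw [← mul_app, swap_mul_self, map_one]; rfl

theorem sgn_sq (σ : Perm (Fin k)) :
    ((Perm.sign σ : ℤ) : K) * ((Perm.sign σ : ℤ) : K) = 1 := by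
  rcases Int.units_eq_one_or (Perm.sign σ) with h | h <;> simp [h]

theorem conj_fix_lt {a l : Fin k} {σ : Perm (Fin k)} {b : Fin k} (hba : b ≠ a) (hbl : b ≠ l)
    (hb : σ b = b) : (swap a (σ l) * σ * swap a l) b = b := by
  have h5 : b ≠ σ l := by
    intro h6
    apply hbl
    apply σ.injective
    rw [hb, ← h6]
  simp only [Perm.mul_apply]
  rw [swap_apply_of_ne_of_ne hba hbl, hb, swap_apply_of_ne_of_ne hba h5]

theorem conj_fix_self {a l : Fin k} {σ : Perm (Fin k)} :
    (swap a (σ l) * σ * swap a l) a = a := by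
  simp [Perm.mul_apply]

theorem stab_ge {a : Fin k} {σ : Perm (Fin k)} (hσ : ∀ b : Fin k, b.val < a.val → σ b = b)
    (l : Fin k) : a ≤ l ↔ a ≤ σ l := by
  constructor
  · intro h
    by_contra hcon
    rw [not_le] at hcon
    have h3 := hσ (σ l) hcon
    have h4 := σ.injective h3
    rw [h4] at hcon
    exact absurd h (not_le.2 hcon)
  · intro h
    by_contra hcon
    rw [not_le] at hcon
    rw [hσ l hcon] at h
    exact absurd h (not_le.2 hcon)

theorem stab_le {a : Fin k} {σ : Perm (Fin k)} (hσ : ∀ b : Fin k, a.val < b.val → σ b = b)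
    (l : Fin k) : l ≤ a ↔ σ l ≤ a := by
  constructor
  · intro h
    by_contra hcon
    rw [not_le] at hcon
    have h3 := hσ (σ l) hcon
    have h4 := σ.injective h3
    rw [h4] at hcon
    exact absurd h (not_le.2 hcon)
  · intro h
    by_contra hcon
    rw [not_le] at hcon
    rw [hσ l hcon] at h
    exact absurd h (not_le.2 hcon)

/-- `D` maps `V (a+1)` to `V a` -/
theorem D_mem (a : Fin k) {x : Q} (hx : x ∈ V ρ (a.val + 1)) : D ρ a x ∈ V ρ a.val := by
  rw [mem_V] at hx ⊢
  obtain ⟨h1, h2⟩ := hx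
  constructor
  · intro σ hσ
    rw [D_apply, map_sum]
    refine Finset.sum_equiv σ ?_ ?_
    · intro l
      simp only [mem_filter, mem_univ, true_and]
      exact stab_ge hσ l
    · intro l hl
      rw [mem_filter] at hl
      have h3 := h1 (swap a (σ l) * σ * swap a l) (by
        intro b hb
        rcases Nat.lt_or_ge b.val a.val with hb' | hb'
        · have hl' : a.val ≤ l.val := hl.2
          exact conj_fix_lt (fun h => by rw [h] at hb'; omega) (fun h => by rw [h] at hb'; omega)
            (hσ b hb')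
        · have : b = a := Fin.ext (by omega)
          rw [this]
          exact conj_fix_self)
      rw [mul_app, mul_app] at h3
      have h4 := congrArg (fun z => ρ (swap a (σ l)) z) h3
      rw [swap_app] at h4
      exact h4
  · intro σ hσ
    rw [D_apply, map_sum, Finset.smul_sum]
    apply Finset.sum_congr rfl
    intro l hl
    rw [mem_filter] at hl
    rw [← mul_app, mul_swap_eq_swap_mul, hσ a le_rfl, hσ l hl.2, mul_app,
      h2 σ (fun b hb => hσ b (by omega)), map_smul]

/-- `H` maps `V a` to `V (a+1)` -/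
theorem H_mem (a : Fin k) {x : Q} (hx : x ∈ V ρ a.val) : H ρ a x ∈ V ρ (a.val + 1) := by
  rw [mem_V] at hx ⊢
  obtain ⟨h1, h2⟩ := hx
  constructor
  · intro σ hσ
    rw [H_apply, map_sum]
    apply Finset.sum_congr rfl
    intro l hl
    rw [mem_filter] at hl
    have hl' : l.val ≤ a.val := hl.2
    rw [map_smul, ← mul_app, mul_swap_eq_swap_mul, hσ a (by omega), hσ l (by omega), mul_app,
      h1 σ (fun b hb => hσ b (by omega))]
  · intro σ hσ
    rw [H_apply, map_sum, Finset.smul_sum]
    refine Finset.sum_equiv σ ?_ ?_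
    · intro l
      simp only [mem_filter, mem_univ, true_and]
      exact stab_le (fun b hb => hσ b (by omega)) l
    · intro l hl
      rw [mem_filter] at hl
      have hl' : l.val ≤ a.val := hl.2
      have h3 := h2 (swap a (σ l) * σ * swap a l) (by
        intro b hb
        by_cases hb' : b = a
        · rw [hb']
          exact conj_fix_self
        · have hb2 : b.val ≠ a.val := fun h => hb' (Fin.ext h)
          exact conj_fix_lt hb' (fun h => by rw [h] at hb hb2; omega)
            (hσ b (by omega)))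
      rw [mul_app, mul_app] at h3
      have h4 := congrArg (fun z => ρ (swap a (σ l)) z) h3
      rw [swap_app, map_smul] at h4
      rw [swap_comm l a, swap_comm (σ l) a, map_smul, h4, smul_smul, smul_smul]
      congr 1
      rw [Perm.sign_mul, Perm.sign_mul]
      push_cast
      have h5 := sgn_sq (K := K) (swap a l)
      linear_combination (((Perm.sign (swap a (σ l)) : ℤ) : K) * ((Perm.sign σ : ℤ) : K)) * h5

variable [CharZero K]

/-- `D D = 0` -/
theorem DD (a a' : Fin k) (ha : a'.val + 1 = a.val) {x : Q} (hx : x ∈ V ρ (a.val + 1)) :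
    D ρ a' (D ρ a x) = 0 := by
  set G : Finset (Perm (Fin k)) := univ.filter (fun σ => ∀ b : Fin k, b.val < a'.val → σ b = b)
    with hG
  have hy1 : D ρ a x ∈ V ρ (a'.val + 1) := by rw [ha]; exact D_mem ρ a hx
  have hy : D ρ a' (D ρ a x) ∈ V ρ a'.val := D_mem ρ a' hy1
  set S : Module.End K Q := ∑ σ ∈ G, ρ σ with hS
  have hSτ : ∀ τ ∈ G, ∀ z : Q, S (ρ τ z) = S z := by
    intro τ hτ z
    rw [hS, LinearMap.sum_apply, LinearMap.sum_apply]
    refine Finset.sum_equiv (Equiv.mulRight τ) ?_ ?_
    · intro σ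
      rw [hG, mem_filter] at hτ
      rw [hG]
      simp only [mem_filter, mem_univ, true_and, coe_mulRight]
      constructor
      · intro h b hb
        rw [Perm.mul_apply, hτ.2 b hb, h b hb]
      · intro h b hb
        have := h b hb
        rwa [Perm.mul_apply, hτ.2 b hb] at this
    · intro σ _
      rw [coe_mulRight, mul_app]
  have hswap : ∀ c d : Fin k, a'.val ≤ c.val → a'.val ≤ d.val → swap c d ∈ G := by
    intro c d hc hd
    rw [hG]
    simp only [mem_filter, mem_univ, true_and]
    intro b hb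
    exact swap_apply_of_ne_of_ne (fun h => by rw [h] at hb; omega)
      (fun h => by rw [h] at hb; omega)
  have hSD : ∀ c : Fin k, a'.val ≤ c.val → ∀ z : Q,
      S (D ρ c z) = ((univ.filter (fun l : Fin k => c ≤ l)).card : K) • S z := by
    intro c hc z
    rw [D_apply, map_sum, Finset.sum_congr rfl (g := fun _ => S z), Finset.sum_const,
      Nat.cast_smul_eq_nsmul]
    intro l hl
    rw [mem_filter] at hl
    have hl' : c.val ≤ l.val := hl.2
    exact hSτ _ (hswap c l hc (by omega)) z
  have hSx : S x = 0 := by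
    have h1 := hSτ _ (hswap a' a le_rfl (by omega)) x
    have h2 := ((mem_V ρ).1 hx).2 (swap a' a) (by
      intro b hb
      exact swap_apply_of_ne_of_ne (fun h => by rw [h] at hb; omega)
        (fun h => by rw [h] at hb; omega))
    rw [Perm.sign_swap (fun h => by rw [h] at ha; omega)] at h2
    have h3 : ρ (swap a' a) x = -x := by
      rw [h2]; simp
    rw [h3, map_neg] at h1
    have h4 : (2 : K) • S x = 0 := by
      rw [two_smul]
      nth_rewrite 1 [← h1]
      exact neg_add_cancel _
    exact (smul_eq_zero.1 h4).resolve_left two_ne_zero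
  have hSy : S (D ρ a' (D ρ a x)) = 0 := by
    rw [hSD a' le_rfl, hSD a (by omega), hSx, smul_zero, smul_zero]
  have hSy2 : S (D ρ a' (D ρ a x)) = (G.card : K) • D ρ a' (D ρ a x) := by
    conv_lhs => rw [hS, LinearMap.sum_apply]
    rw [Finset.sum_congr rfl (g := fun _ => D ρ a' (D ρ a x)), Finset.sum_const,
      Nat.cast_smul_eq_nsmul]
    intro σ hσ
    rw [hG, mem_filter] at hσ
    exact ((mem_V ρ).1 hy).1 σ hσ.2
  rw [hSy] at hSy2
  have h1G : (1 : Perm (Fin k)) ∈ G := by
    rw [hG]; simp
  have hc : (G.card : K) ≠ 0 := by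
    rw [Nat.cast_ne_zero]
    exact (Finset.card_pos.2 ⟨1, h1G⟩).ne'
  exact (smul_eq_zero.1 hSy2.symm).resolve_left hc

omit [CharZero K] in
theorem DH (a : Fin k) {x : Q} (hx : x ∈ V ρ a.val) : D ρ a (H ρ a x) =
    ((k : K) - (a.val : K)) • x - ∑ j ∈ univ.filter (fun j : Fin k => j < a),
      ∑ l ∈ univ.filter (fun l : Fin k => a ≤ l), ρ (swap j l) x := by
  obtain ⟨h1, h2⟩ := (mem_V ρ).1 hx
  have hsplit : univ.filter (fun l : Fin k => l ≤ a) =
      insert a (univ.filter (fun l : Fin k => l < a)) := by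
    ext l
    simp only [mem_filter, mem_univ, true_and, mem_insert]
    exact le_iff_eq_or_lt
  have hH : H ρ a x = x - ∑ j ∈ univ.filter (fun j : Fin k => j < a), ρ (swap j a) x := by
    rw [H_apply, hsplit, Finset.sum_insert (by simp)]
    rw [swap_self, sub_eq_add_neg, ← Finset.sum_neg_distrib]
    congr 1
    · change ((Perm.sign (1 : Perm (Fin k)) : ℤ) : K) • ρ (1 : Perm (Fin k)) x = x
      rw [map_one, map_one]; simp
    · apply Finset.sum_congr rfl
      intro j hj
      rw [mem_filter] at hj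
      rw [Perm.sign_swap hj.2.ne]; simp
  have hstab : ∀ l ∈ univ.filter (fun l : Fin k => a ≤ l), ρ (swap a l) x = x := by
    intro l hl
    rw [mem_filter] at hl
    have hl' : a.val ≤ l.val := hl.2
    apply h1
    intro b hb
    exact swap_apply_of_ne_of_ne (fun h => by rw [h] at hb; omega)
        (fun h => by rw [h] at hb; omega)
  rw [hH, map_sub, map_sum, D_apply, Finset.sum_congr rfl hstab, Finset.sum_const]
  have hcard : (univ.filter (fun l : Fin k => a ≤ l)).card = k - a.val := by
    rw [Finset.filter_le_eq_Ici, Fin.card_Ici]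
  rw [hcard, ← Nat.cast_smul_eq_nsmul K, Nat.cast_sub a.isLt.le]
  congr 1
  apply Finset.sum_congr rfl
  intro j hj
  rw [mem_filter] at hj
  rw [D_apply]
  apply Finset.sum_congr rfl
  intro l hl
  have hl' := (mem_filter.1 hl).2
  have hjl : j ≠ l := (lt_of_lt_of_le hj.2 hl').ne
  have hja : j ≠ a := hj.2.ne
  -- `(a l) (j a) = (j l) (a l)`
  rw [← mul_app]
  have e : swap a l * swap j a = swap j l * swap a l := by
    rw [mul_swap_eq_swap_mul, swap_apply_left, swap_apply_of_ne_of_ne hja hjl]
  rw [e, mul_app, hstab l hl]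

omit [CharZero K] in
theorem HD (a' : Fin k) {x : Q} (hx : x ∈ V ρ (a'.val + 1)) : H ρ a' (D ρ a' x) =
    ((a'.val : K) + 1) • x + ∑ j ∈ univ.filter (fun j : Fin k => j ≤ a'),
      ∑ l ∈ univ.filter (fun l : Fin k => a' < l), ρ (swap j l) x := by
  obtain ⟨h1, h2⟩ := (mem_V ρ).1 hx
  have hsplit : univ.filter (fun l : Fin k => a' ≤ l) =
      insert a' (univ.filter (fun l : Fin k => a' < l)) := by
    ext l
    simp only [mem_filter, mem_univ, true_and, mem_insert]
    rw [le_iff_eq_or_lt, eq_comm]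
  have hD : D ρ a' x = x + ∑ l ∈ univ.filter (fun l : Fin k => a' < l), ρ (swap a' l) x := by
    rw [D_apply, hsplit, Finset.sum_insert (by simp)]
    congr 1
    rw [swap_self]
    change ρ (1 : Perm (Fin k)) x = x
    rw [map_one]; rfl
  have hstab : ∀ j ∈ univ.filter (fun j : Fin k => j ≤ a'),
      ((Perm.sign (swap j a') : ℤ) : K) • ρ (swap j a') x = x := by
    intro l hl
    rw [mem_filter] at hl
    have hl' : l.val ≤ a'.val := hl.2
    rw [h2, smul_smul, sgn_sq, one_smul]
    intro b hb
    exact swap_apply_of_ne_of_ne (fun h => by rw [h] at hb; omega)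
        (fun h => by rw [h] at hb; omega)
  rw [hD, map_add, map_sum]
  have e1 : H ρ a' x = ((a'.val : K) + 1) • x := by
    rw [H_apply, Finset.sum_congr rfl hstab, Finset.sum_const, Finset.filter_ge_eq_Iic,
      Fin.card_Iic, ← Nat.cast_smul_eq_nsmul K]
    push_cast; rfl
  rw [e1]
  congr 1
  rw [Finset.sum_comm]
  apply Finset.sum_congr rfl
  intro l hl
  rw [H_apply]
  apply Finset.sum_congr rfl
  intro j hj
  have hl' := (mem_filter.1 hl).2
  have hj' := (mem_filter.1 hj).2
  have hjl : l ≠ j := (lt_of_le_of_lt hj' hl').ne'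
  -- `(j a') (a' l) = (j l) (j a')`
  rw [← mul_app]
  have e : swap j a' * swap a' l = swap j l * swap j a' := by
    rw [mul_swap_eq_swap_mul, swap_apply_right, swap_apply_of_ne_of_ne hjl hl'.ne']
  rw [e, mul_app, ← map_smul, hstab j hj]

end

/-- kernels -/
noncomputable def Z {K Q : Type*} [Field K] [AddCommGroup Q] [Module K Q] {k : ℕ}
    (ρ : Equiv.Perm (Fin k) →* Module.End K Q) : ℕ → Submodule K Q
  | 0 => V ρ 0
  | i + 1 => if h : i < k then V ρ (i + 1) ⊓ LinearMap.ker (D ρ ⟨i, h⟩) else ⊥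

theorem koszul {K Q : Type*} [Field K] [CharZero K] [AddCommGroup Q] [Module K Q]
    [Module.Finite K Q] {k : ℕ} (hk : 1 ≤ k) (ρ : Equiv.Perm (Fin k) →* Module.End K Q) :
    ∑ i ∈ Finset.range (k + 1), (-1 : ℤ) ^ i *
      (Module.finrank K (SkInv ρ (Finset.univ.filter fun j : Fin k => j.val < i)) : ℤ) = 0 := by
  have hk0 : (k : K) ≠ 0 := Nat.cast_ne_zero.2 (by omega)
  -- exactness
  have hex : ∀ i : ℕ, ∀ h : i < k, (V ρ (i + 1)).map (D ρ ⟨i, h⟩) = Z ρ i := by
    intro i h
    apply le_antisymm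
    · rintro _ ⟨x, hx, rfl⟩
      cases i with
      | zero =>
        exact D_mem ρ ⟨0, h⟩ hx
      | succ i =>
        rw [Z, dif_pos (by omega)]
        exact ⟨D_mem ρ ⟨i + 1, h⟩ hx, DD ρ ⟨i + 1, h⟩ ⟨i, by omega⟩ rfl hx⟩
    · intro y hy
      refine ⟨(k : K)⁻¹ • H ρ ⟨i, h⟩ y, ?_, ?_⟩
      · have hyV : y ∈ V ρ i := by
          cases i with
          | zero => exact hy
          | succ i =>
            rw [Z, dif_pos (by omega)] at hy
            exact hy.1
        exact Submodule.smul_mem _ _ (H_mem ρ ⟨i, h⟩ hyV)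
      · rw [map_smul]
        cases i with
        | zero =>
          have hyV : y ∈ V ρ 0 := hy
          rw [DH ρ ⟨0, h⟩ hyV]
          have e : univ.filter (fun j : Fin k => j < ⟨0, h⟩) = ∅ := by
            ext j
            simp [Fin.lt_def]
          rw [e, Finset.sum_empty, sub_zero]
          simp only [Nat.cast_zero, sub_zero]
          rw [smul_smul, inv_mul_cancel₀ hk0, one_smul]
        | succ i =>
          rw [Z, dif_pos (by omega)] at hy
          obtain ⟨hyV, hyD⟩ := hy
          have h1 := HD ρ ⟨i, by omega⟩ hyV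
          rw [LinearMap.mem_ker.1 hyD, map_zero] at h1
          have h2 := DH ρ ⟨i + 1, h⟩ hyV
          have e1 : univ.filter (fun j : Fin k => j < ⟨i + 1, h⟩) =
              univ.filter (fun j : Fin k => j ≤ ⟨i, by omega⟩) := by
            ext j
            simp only [mem_filter, mem_univ, true_and, Fin.lt_def, Fin.le_def]
            omega
          have e2 : univ.filter (fun l : Fin k => (⟨i + 1, h⟩ : Fin k) ≤ l) =
              univ.filter (fun l : Fin k => (⟨i, by omega⟩ : Fin k) < l) := by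
            ext j
            simp only [mem_filter, mem_univ, true_and, Fin.lt_def, Fin.le_def]
            omega
          rw [e1, e2] at h2
          have h3 : D ρ ⟨i + 1, h⟩ (H ρ ⟨i + 1, h⟩ y) = (k : K) • y := by
            rw [h2]
            have h4 := eq_neg_of_add_eq_zero_right h1.symm
            rw [h4]
            simp only [Nat.cast_add, Nat.cast_one]
            rw [sub_neg_eq_add, ← add_smul]
            congr 1
            ring
          rw [h3, smul_smul, inv_mul_cancel₀ hk0, one_smul]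
  -- the top kernel is zero
  have htop : Z ρ k = ⊥ := by
    obtain ⟨k', rfl⟩ : ∃ k', k = k' + 1 := ⟨k - 1, by omega⟩
    rw [Z, dif_pos (by omega), eq_bot_iff]
    rintro x ⟨hx, hxD⟩
    have h1 := HD ρ ⟨k', by omega⟩ hx
    rw [LinearMap.mem_ker.1 hxD, map_zero] at h1
    have e2 : univ.filter (fun l : Fin (k' + 1) => (⟨k', by omega⟩ : Fin (k' + 1)) < l) = ∅ := by
      ext j
      simp only [mem_filter, mem_univ, true_and, Fin.lt_def, notMem_empty, iff_false]
      omega
    rw [e2] at h1
    simp only [Finset.sum_empty, Finset.sum_const_zero, add_zero] at h1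
    have h2 : ((k' : K) + 1) ≠ 0 := by exact_mod_cast hk0
    exact (smul_eq_zero.1 h1.symm).resolve_left h2
  -- dimensions
  have hdim : ∀ i : ℕ, i < k → (Module.finrank K (V ρ (i + 1)) : ℤ) =
      Module.finrank K (Z ρ i) + Module.finrank K (Z ρ (i + 1)) := by
    intro i h
    have h1 := LinearMap.finrank_range_add_finrank_ker ((D ρ ⟨i, h⟩).domRestrict (V ρ (i + 1)))
    rw [LinearMap.range_domRestrict, hex i h] at h1
    have h2 : Module.finrank K (LinearMap.ker ((D ρ ⟨i, h⟩).domRestrict (V ρ (i + 1)))) =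
        Module.finrank K (Z ρ (i + 1)) := by
      rw [Z, dif_pos h, LinearMap.ker_domRestrict, (Submodule.equivSubtypeMap _ _).finrank_eq,
        Submodule.map_comap_subtype]
    rw [h2] at h1
    exact_mod_cast h1.symm
  have hsum : ∀ m : ℕ, m ≤ k → ∑ i ∈ Finset.range (m + 1), (-1 : ℤ) ^ i *
      (Module.finrank K (V ρ i) : ℤ) = (-1) ^ m * Module.finrank K (Z ρ m) := by
    intro m
    induction m with
    | zero =>
      intro _
      simp only [zero_add, Finset.range_one, Finset.sum_singleton, pow_zero, one_mul]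
      rfl
    | succ m ih =>
      intro hm
      rw [Finset.sum_range_succ, ih (by omega), hdim m (by omega)]
      ring
  have h := hsum k le_rfl
  rw [htop] at h
  rw [h]
  simp

end Pool.Agent.N9.ZL
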